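import Mathlib
import Pool.Agent.W200.MR.Stm

/-!
# S18410 project: `S_L2` from the pieces
-/

set_option autoImplicit false

open Finset Filter Topology MeasureTheory

namespace Pool.Agent.W402.MR

open Pool.Agent.W200.MR

theorem norm_pw (s : ℝ) (n : ℕ) : ‖pw s n‖ = 1 := by
  unfold pw
  exact Complex.norm_exp_ofReal_mul_I _

theorem pw_add (s t : ℝ) (n : ℕ) : pw (s + t) n = pw s n * pw t n := by
  unfold pw
  rw [← Complex.exp_add]
  congr 1
  push_cast
  ring

theorem AP_mod (a b N : ℕ) : AP a (b % a) N = AP a b N := by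
  unfold AP
  simp

theorem SR_mod (s : ℝ) (T a b N : ℕ) : SR s T a (b % a) N = SR s T a b N := by
  unfold SR
  rw [AP_mod]

theorem SA_mod (s : ℝ) (a b N : ℕ) : SA s a (b % a) N = SA s a b N := by
  unfold SA
  rw [AP_mod]

open Classical in
theorem SA_split (s : ℝ) (T a b N : ℕ) : SA s a b N = SD s T a b N + SR s T a b N := by
  unfold SA SD SR
  exact (Finset.sum_filter_add_sum_filter_not _ _ _).symm

open Classical in
theorem SA_eq_sum (s : ℝ) (a b N : ℕ) :
    SA s a b N = ∑ n ∈ Icc 1 N, (if n % a = b % a then pw s n else 0) := by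
  unfold SA AP
  rw [Finset.sum_filter]

open Classical in
theorem SR_eq_sum (s : ℝ) (T a b N : ℕ) :
    SR s T a b N = ∑ n ∈ Icc 1 N, (if n % a = b % a ∧ ¬ Smooth T n then pw s n else 0) := by
  unfold SR AP
  rw [Finset.filter_filter, Finset.sum_filter]

/-- one member of the triple sum -/
theorem le_triple (A : ℕ) (I : Finset ℕ) (F : ℕ → ℕ → ℕ → ℝ) (hF : ∀ a b N, 0 ≤ F a b N) (q : ℝ)
    (h : ∑ a ∈ Icc 1 A, ∑ b ∈ range a, ∑ N ∈ I, F a b N < q) (a b : ℕ) (ha : 1 ≤ a) (haA : a ≤ A)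
    (J : Finset ℕ) (hJ : J ⊆ I) : ∑ N ∈ J, F a (b % a) N < q := by
  refine lt_of_le_of_lt ?_ h
  have h1 : ∑ N ∈ J, F a (b % a) N ≤ ∑ N ∈ I, F a (b % a) N :=
    Finset.sum_le_sum_of_subset_of_nonneg hJ (fun _ _ _ => hF _ _ _)
  have h2 : ∑ N ∈ I, F a (b % a) N ≤ ∑ b ∈ range a, ∑ N ∈ I, F a b N :=
    Finset.single_le_sum (f := fun b => ∑ N ∈ I, F a b N)
      (fun _ _ => Finset.sum_nonneg (fun _ _ => hF _ _ _)) (Finset.mem_range.mpr (Nat.mod_lt _ ha))
  have h3 : ∑ b ∈ range a, ∑ N ∈ I, F a b N ≤ ∑ a ∈ Icc 1 A, ∑ b ∈ range a, ∑ N ∈ I, F a b N :=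
    Finset.single_le_sum (f := fun a => ∑ b ∈ range a, ∑ N ∈ I, F a b N)
      (fun _ _ => Finset.sum_nonneg (fun _ _ => Finset.sum_nonneg (fun _ _ => hF _ _ _)))
      (Finset.mem_Icc.mpr ⟨ha, haA⟩)
  exact h1.trans (h2.trans h3)

theorem smooth_of_lt (T n : ℕ) (h1 : 1 ≤ n) (h2 : n < T) : Smooth T n := by
  intro p _ hpn
  exact lt_of_le_of_lt (Nat.le_of_dvd h1 hpn) h2

open Classical in
theorem SD_close (s t κ : ℝ) (T a b N : ℕ) (hκ : 0 ≤ κ)
    (h : ∀ n, 1 ≤ n → n ≤ N → Smooth T n → ‖pw t n - 1‖ ≤ κ) :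
    ‖SD (s + t) T a b N‖ ≤ ‖SD s T a b N‖ + κ * N := by
  have h1 : SD (s + t) T a b N = SD s T a b N +
      ∑ n ∈ (AP a b N).filter (fun n => Smooth T n), pw s n * (pw t n - 1) := by
    unfold SD
    rw [← Finset.sum_add_distrib]
    apply Finset.sum_congr rfl
    intro n _
    rw [pw_add]; ring
  rw [h1]
  refine (norm_add_le _ _).trans ?_
  gcongr
  have h2 : ‖∑ n ∈ (AP a b N).filter (fun n => Smooth T n), pw s n * (pw t n - 1)‖
      ≤ ∑ n ∈ (AP a b N).filter (fun n => Smooth T n), κ := by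
    apply norm_sum_le_of_le
    intro n hn
    rw [Finset.mem_filter] at hn
    have h3 : n ∈ Icc 1 N := by
      have := hn.1
      unfold AP at this
      exact (Finset.mem_filter.mp this).1
    rw [Finset.mem_Icc] at h3
    rw [norm_mul, norm_pw, one_mul]
    exact h n h3.1 h3.2 hn.2
  refine h2.trans ?_
  rw [Finset.sum_const, nsmul_eq_mul, mul_comm]
  have h4 : ((AP a b N).filter (fun n => Smooth T n)).card ≤ N := by
    refine (Finset.card_filter_le _ _).trans ?_
    unfold AP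
    refine (Finset.card_filter_le _ _).trans ?_
    simp
  have h5 : (((AP a b N).filter (fun n => Smooth T n)).card : ℝ) ≤ N := by exact_mod_cast h4
  exact mul_le_mul_of_nonneg_left h5 hκ

theorem t_L2 : S_SUP → S_EX → S_L2a → S_L2b → S_L2c → S_L2 := by
  intro hSUP hEX hA hB hC η A hη
  obtain ⟨C, hC0, hEX⟩ := hEX
  set A' : ℕ := max A 1 with hA'
  have hA1 : 1 ≤ A' := le_max_right _ _
  have hAA : A ≤ A' := le_max_left _ _
  set η1 : ℝ := min η 1 / 8 with hη1
  have hm0 : 0 < min η 1 := lt_min hη one_pos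
  have hη10 : 0 < η1 := by rw [hη1]; linarith
  have hη11 : η1 ≤ 1 := by
    rw [hη1]; have := min_le_right η 1; linarith
  have hη12 : 8 * η1 ≤ η := by
    rw [hη1]; have := min_le_left η 1; linarith
  set q : ℝ := η1 ^ 3 / 4 with hq
  have hq0 : 0 < q := by rw [hq]; positivity
  refine ⟨max 2 ⌈(C * (A' : ℝ) ^ 2 / q) ^ 2⌉₊, ?_⟩
  intro T hT s δ S0 hδ
  have hT2 : 2 ≤ T := le_trans (le_max_left _ _) hT
  have hTc : (C * (A' : ℝ) ^ 2 / q) ^ 2 ≤ T := by
    refine (Nat.le_ceil _).trans ?_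
    exact_mod_cast le_trans (le_max_right _ _) hT
  have hTpos : (0 : ℝ) < T := by
    have : 0 < T := by omega
    exact_mod_cast this
  have hTq : C * (A' : ℝ) ^ 2 / Real.sqrt T ≤ q := by
    have h1 : C * (A' : ℝ) ^ 2 / q ≤ Real.sqrt T := Real.le_sqrt_of_sq_le hTc
    have h2 : 0 < Real.sqrt T := Real.sqrt_pos.mpr hTpos
    rw [div_le_iff₀ hq0] at h1
    rw [div_le_iff₀ h2]
    linarith
  obtain ⟨N0, S1, hC⟩ := hC s η A' hη
  set κ : ℝ := min δ (η / 2) with hκ
  have hκ0 : 0 < κ := lt_min hδ (by linarith)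
  have hκδ : κ ≤ δ := min_le_left _ _
  have hκη : κ ≤ η / 2 := min_le_right _ _
  obtain ⟨m, Y, hm, hTY, hNY, hmY, hlog⟩ := hB T A' N0 q κ hq0 hκ0
  obtain ⟨t, X, hSt, ht0, htX, hYX, hp, hQ1, hQ2⟩ :=
    hEX T A' m Y s q (max S0 S1) hT2 hA1 hm hq0 hTq hmY hTY
  have hsm : ∀ n : ℕ, 1 ≤ n → n ≤ Y → Smooth T n → ‖pw t n - 1‖ ≤ κ := by
    intro n h1 h2 h3
    exact (hA T m Y t hm hp n h1 h2 h3).trans hlog
  refine ⟨t, (le_max_left _ _).trans hSt, ?_, ?_⟩
  · intro n h1 h2
    exact (hsm n h1 (by omega) (smooth_of_lt T n h1 h2)).trans hκδ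
  · intro N hTN a b ha1 haA
    have hN0 : (0 : ℝ) ≤ N := Nat.cast_nonneg _
    have hN1 : 1 ≤ N := by omega
    by_cases hNY' : N ≤ Y
    · -- T ≤ N ≤ Y
      rw [SA_split (s + t) T a b N]
      refine (norm_add_le _ _).trans ?_
      have h1 := SD_close s t κ T a b N hκ0.le (fun n h1 h2 h3 => hsm n h1 (h2.trans hNY') h3)
      have h2 : ‖SR (s + t) T a b N‖ < 2 * η1 * N := by
        classical
        rw [SR_eq_sum]
        apply hSUP _ η1 N ?_ hη10 hη11 hN1 ?_
        · intro n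
          split_ifs
          · rw [norm_pw]
          · simp
        · have h3 := le_triple A' (Icc T (2 * Y))
            (fun a b N => ‖SR (s + t) T a b N‖ ^ 2 / (N : ℝ) ^ 3) (fun _ _ _ => by positivity) q hQ1
            a b ha1 (haA.trans hAA) (Icc N (2 * N)) (by
              intro x hx
              rw [Finset.mem_Icc] at hx ⊢
              omega)
          rw [← hq]
          refine lt_of_le_of_lt (le_of_eq ?_) h3
          apply Finset.sum_congr rfl
          intro M _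
          rw [SR_mod, SR_eq_sum]
      nlinarith
    · by_cases hNX : N ≤ X
      · -- Y < N ≤ X
        have h2 : ‖SA (s + t) a b N‖ < 2 * η1 * N := by
          classical
          rw [SA_eq_sum]
          apply hSUP _ η1 N ?_ hη10 hη11 hN1 ?_
          · intro n
            split_ifs
            · rw [norm_pw]
            · simp
          · have h3 := le_triple A' (Icc Y (2 * X))
              (fun a b N => ‖SA (s + t) a b N‖ ^ 2 / (N : ℝ) ^ 3) (fun _ _ _ => by positivity) q hQ2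
              a b ha1 (haA.trans hAA) (Icc N (2 * N)) (by
                intro x hx
                rw [Finset.mem_Icc] at hx ⊢
                omega)
            rw [← hq]
            refine lt_of_le_of_lt (le_of_eq ?_) h3
            apply Finset.sum_congr rfl
            intro M _
            rw [SA_mod, SA_eq_sum]
        have h3 : 0 ≤ ‖SD s T a b N‖ := norm_nonneg _
        nlinarith
      · have h1 := hC t X N ((le_max_right _ _).trans hSt) ht0 htX (by omega) (by omega) a b ha1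
          (haA.trans hAA)
        have h3 : 0 ≤ ‖SD s T a b N‖ := norm_nonneg _
        linarith

end Pool.Agent.W402.MR
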